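import Pool.Agent.SYE.C19
import Pool.Agent.SYE.C20
import Pool.Agent.SYE.C21
import Pool.Agent.SYE.C22
import Pool.Agent.SYE.C23
import Pool.Agent.SYE.C24
import Pool.Agent.SYE.C25
import Pool.Agent.SYE.C26
import Pool.Agent.SYE.C27
import Pool.Agent.SYE.C28
import Pool.Agent.SYE.C29
import Pool.Agent.SYE.C30
import Pool.Agent.SYE.C31
import Pool.Agent.SYE.C32
import Pool.Agent.SYE.C33
import Pool.Agent.SYE.C34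
import Pool.Agent.SYE.C35
import Pool.Agent.SYE.C36
import Pool.Agent.SYE.C37
import Pool.Agent.SYE.C38
import Pool.Agent.SYE.C39
import Pool.Agent.Rpr.Inp
set_option autoImplicit false
set_option maxRecDepth 1000000
set_option linter.all false

namespace SYE

open Rpr

theorem rng1 : ∀ j, 100 ≤ j → j < 200 → OKc TB QT 10216 PR 80 SY8.gen8 SY8.valid8 j := by
  intro j h1 h2
  interval_cases j
  · exact Or.inr ⟨_, _, _, k100⟩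
  · exact Or.inr ⟨_, _, _, k101⟩
  · exact Or.inr ⟨_, _, _, k102⟩
  · exact Or.inr ⟨_, _, _, k103⟩
  · exact Or.inr ⟨_, _, _, k104⟩
  · exact Or.inr ⟨_, _, _, k105⟩
  · exact Or.inr ⟨_, _, _, k106⟩
  · exact Or.inr ⟨_, _, _, k107⟩
  · exact Or.inr ⟨_, _, _, k108⟩
  · exact Or.inr ⟨_, _, _, k109⟩
  · exact Or.inr ⟨_, _, _, k110⟩
  · exact Or.inr ⟨_, _, _, k111⟩
  · exact Or.inr ⟨_, _, _, k112⟩
  · exact Or.inr ⟨_, _, _, k113⟩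
  · exact Or.inr ⟨_, _, _, k114⟩
  · exact Or.inr ⟨_, _, _, k115⟩
  · exact Or.inr ⟨_, _, _, k116⟩
  · exact Or.inr ⟨_, _, _, k117⟩
  · exact Or.inr ⟨_, _, _, k118⟩
  · exact Or.inr ⟨_, _, _, k119⟩
  · exact Or.inr ⟨_, _, _, k120⟩
  · exact Or.inr ⟨_, _, _, k121⟩
  · exact Or.inr ⟨_, _, _, k122⟩
  · exact Or.inr ⟨_, _, _, k123⟩
  · exact Or.inr ⟨_, _, _, k124⟩
  · exact Or.inr ⟨_, _, _, k125⟩
  · exact Or.inr ⟨_, _, _, k126⟩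
  · exact Or.inr ⟨_, _, _, k127⟩
  · exact Or.inr ⟨_, _, _, k128⟩
  · exact Or.inr ⟨_, _, _, k129⟩
  · exact Or.inr ⟨_, _, _, k130⟩
  · exact Or.inr ⟨_, _, _, k131⟩
  · exact Or.inr ⟨_, _, _, k132⟩
  · exact Or.inr ⟨_, _, _, k133⟩
  · exact Or.inr ⟨_, _, _, k134⟩
  · exact Or.inr ⟨_, _, _, k135⟩
  · exact Or.inr ⟨_, _, _, k136⟩
  · exact Or.inr ⟨_, _, _, k137⟩
  · exact Or.inr ⟨_, _, _, k138⟩
  · exact Or.inr ⟨_, _, _, k139⟩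
  · exact Or.inr ⟨_, _, _, k140⟩
  · exact Or.inr ⟨_, _, _, k141⟩
  · exact Or.inr ⟨_, _, _, k142⟩
  · exact Or.inr ⟨_, _, _, k143⟩
  · exact Or.inr ⟨_, _, _, k144⟩
  · exact Or.inr ⟨_, _, _, k145⟩
  · exact Or.inr ⟨_, _, _, k146⟩
  · exact Or.inr ⟨_, _, _, k147⟩
  · exact Or.inr ⟨_, _, _, k148⟩
  · exact Or.inr ⟨_, _, _, k149⟩
  · exact Or.inr ⟨_, _, _, k150⟩
  · exact Or.inr ⟨_, _, _, k151⟩
  · exact Or.inr ⟨_, _, _, k152⟩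
  · exact Or.inr ⟨_, _, _, k153⟩
  · exact Or.inr ⟨_, _, _, k154⟩
  · exact Or.inr ⟨_, _, _, k155⟩
  · exact Or.inr ⟨_, _, _, k156⟩
  · exact Or.inr ⟨_, _, _, k157⟩
  · exact Or.inr ⟨_, _, _, k158⟩
  · exact Or.inr ⟨_, _, _, k159⟩
  · exact Or.inr ⟨_, _, _, k160⟩
  · exact Or.inr ⟨_, _, _, k161⟩
  · exact Or.inr ⟨_, _, _, k162⟩
  · exact Or.inr ⟨_, _, _, k163⟩
  · exact Or.inr ⟨_, _, _, k164⟩
  · exact Or.inr ⟨_, _, _, k165⟩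
  · exact Or.inr ⟨_, _, _, k166⟩
  · exact Or.inr ⟨_, _, _, k167⟩
  · exact Or.inr ⟨_, _, _, k168⟩
  · exact Or.inr ⟨_, _, _, k169⟩
  · exact Or.inr ⟨_, _, _, k170⟩
  · exact Or.inr ⟨_, _, _, k171⟩
  · exact Or.inr ⟨_, _, _, k172⟩
  · exact Or.inr ⟨_, _, _, k173⟩
  · exact Or.inr ⟨_, _, _, k174⟩
  · exact Or.inr ⟨_, _, _, k175⟩
  · exact Or.inr ⟨_, _, _, k176⟩
  · exact Or.inr ⟨_, _, _, k177⟩
  · exact Or.inr ⟨_, _, _, k178⟩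
  · exact Or.inr ⟨_, _, _, k179⟩
  · exact Or.inr ⟨_, _, _, k180⟩
  · exact Or.inr ⟨_, _, _, k181⟩
  · exact Or.inr ⟨_, _, _, k182⟩
  · exact Or.inr ⟨_, _, _, k183⟩
  · exact Or.inr ⟨_, _, _, k184⟩
  · exact Or.inr ⟨_, _, _, k185⟩
  · exact Or.inr ⟨_, _, _, k186⟩
  · exact Or.inr ⟨_, _, _, k187⟩
  · exact Or.inr ⟨_, _, _, k188⟩
  · exact Or.inr ⟨_, _, _, k189⟩
  · exact Or.inr ⟨_, _, _, k190⟩
  · exact Or.inr ⟨_, _, _, k191⟩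
  · exact Or.inr ⟨_, _, _, k192⟩
  · exact Or.inr ⟨_, _, _, k193⟩
  · exact Or.inr ⟨_, _, _, k194⟩
  · exact Or.inr ⟨_, _, _, k195⟩
  · exact Or.inr ⟨_, _, _, k196⟩
  · exact Or.inr ⟨_, _, _, k197⟩
  · exact Or.inr ⟨_, _, _, k198⟩
  · exact Or.inr ⟨_, _, _, k199⟩

end SYE
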