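import Pool.Agent.SYE.C39
import Pool.Agent.SYE.C40
import Pool.Agent.SYE.C41
import Pool.Agent.SYE.C42
import Pool.Agent.Rpr.Inp
set_option autoImplicit false
set_option maxRecDepth 1000000
set_option linter.all false

namespace SYE

open Rpr

theorem rng2 : ∀ j, 200 ≤ j → j < 213 → OKc TB QT 10216 PR 80 SY8.gen8 SY8.valid8 j := by
  intro j h1 h2
  interval_cases j
  · exact Or.inr ⟨_, _, _, k200⟩
  · exact Or.inr ⟨_, _, _, k201⟩
  · exact Or.inr ⟨_, _, _, k202⟩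
  · exact Or.inr ⟨_, _, _, k203⟩
  · exact Or.inr ⟨_, _, _, k204⟩
  · exact Or.inr ⟨_, _, _, k205⟩
  · exact Or.inr ⟨_, _, _, k206⟩
  · exact Or.inr ⟨_, _, _, k207⟩
  · exact Or.inr ⟨_, _, _, k208⟩
  · exact Or.inr ⟨_, _, _, k209⟩
  · exact Or.inr ⟨_, _, _, k210⟩
  · exact Or.inr ⟨_, _, _, k211⟩
  · exact Or.inr ⟨_, _, _, k212⟩

end SYE
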