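import Pool.Agent.SYE.R0
import Pool.Agent.SYE.R1
import Pool.Agent.SYE.R2
set_option autoImplicit false
set_option maxRecDepth 1000000
set_option linter.all false

namespace SYE

open Rpr

theorem all : ∀ j < 213, OKc TB QT 10216 PR 80 SY8.gen8 SY8.valid8 j := by
  intro j hj
  rcases Nat.lt_or_ge j 100 with h | h0
  · exact rng0 j (by omega) h
  rcases Nat.lt_or_ge j 200 with h | h1
  · exact rng1 j (by omega) h
  exact rng2 j (by omega) (by omega)

theorem refut (val : ℕ → Bool)
    (hval : ∀ g, SY8.valid8 g = true → ∃ p ∈ SY8.gen8 g, val p.1 = p.2) : False :=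
  refuted tab_ok prod_ok hval all (j := 212) (k := 71) (by decide) (by decide +kernel)

end SYE
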