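import Pool.Agent.SYE.C0
import Pool.Agent.SYE.C1
import Pool.Agent.SYE.C2
import Pool.Agent.SYE.C3
import Pool.Agent.SYE.C4
import Pool.Agent.SYE.C5
import Pool.Agent.SYE.C6
import Pool.Agent.SYE.C7
import Pool.Agent.SYE.C8
import Pool.Agent.SYE.C9
import Pool.Agent.SYE.C10
import Pool.Agent.SYE.C11
import Pool.Agent.SYE.C12
import Pool.Agent.SYE.C13
import Pool.Agent.SYE.C14
import Pool.Agent.SYE.C15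
import Pool.Agent.SYE.C16
import Pool.Agent.SYE.C17
import Pool.Agent.SYE.C18
import Pool.Agent.SYE.C19
import Pool.Agent.Rpr.Inp
set_option autoImplicit false
set_option maxRecDepth 1000000
set_option linter.all false

namespace SYE

open Rpr

theorem rng0 : ∀ j, 0 ≤ j → j < 100 → OKc TB QT 10216 PR 80 SY8.gen8 SY8.valid8 j := by
  intro j h1 h2
  interval_cases j
  · exact Or.inl ⟨_, i0⟩
  · exact Or.inl ⟨_, i1⟩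
  · exact Or.inl ⟨_, i2⟩
  · exact Or.inl ⟨_, i3⟩
  · exact Or.inl ⟨_, i4⟩
  · exact Or.inl ⟨_, i5⟩
  · exact Or.inl ⟨_, i6⟩
  · exact Or.inl ⟨_, i7⟩
  · exact Or.inl ⟨_, i8⟩
  · exact Or.inl ⟨_, i9⟩
  · exact Or.inl ⟨_, i10⟩
  · exact Or.inl ⟨_, i11⟩
  · exact Or.inl ⟨_, i12⟩
  · exact Or.inl ⟨_, i13⟩
  · exact Or.inl ⟨_, i14⟩
  · exact Or.inl ⟨_, i15⟩
  · exact Or.inl ⟨_, i16⟩
  · exact Or.inl ⟨_, i17⟩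
  · exact Or.inl ⟨_, i18⟩
  · exact Or.inl ⟨_, i19⟩
  · exact Or.inl ⟨_, i20⟩
  · exact Or.inl ⟨_, i21⟩
  · exact Or.inr ⟨_, _, _, k22⟩
  · exact Or.inr ⟨_, _, _, k23⟩
  · exact Or.inr ⟨_, _, _, k24⟩
  · exact Or.inr ⟨_, _, _, k25⟩
  · exact Or.inr ⟨_, _, _, k26⟩
  · exact Or.inr ⟨_, _, _, k27⟩
  · exact Or.inr ⟨_, _, _, k28⟩
  · exact Or.inr ⟨_, _, _, k29⟩
  · exact Or.inr ⟨_, _, _, k30⟩
  · exact Or.inr ⟨_, _, _, k31⟩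
  · exact Or.inr ⟨_, _, _, k32⟩
  · exact Or.inr ⟨_, _, _, k33⟩
  · exact Or.inr ⟨_, _, _, k34⟩
  · exact Or.inr ⟨_, _, _, k35⟩
  · exact Or.inr ⟨_, _, _, k36⟩
  · exact Or.inr ⟨_, _, _, k37⟩
  · exact Or.inr ⟨_, _, _, k38⟩
  · exact Or.inr ⟨_, _, _, k39⟩
  · exact Or.inr ⟨_, _, _, k40⟩
  · exact Or.inr ⟨_, _, _, k41⟩
  · exact Or.inr ⟨_, _, _, k42⟩
  · exact Or.inr ⟨_, _, _, k43⟩
  · exact Or.inr ⟨_, _, _, k44⟩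
  · exact Or.inr ⟨_, _, _, k45⟩
  · exact Or.inr ⟨_, _, _, k46⟩
  · exact Or.inr ⟨_, _, _, k47⟩
  · exact Or.inr ⟨_, _, _, k48⟩
  · exact Or.inr ⟨_, _, _, k49⟩
  · exact Or.inr ⟨_, _, _, k50⟩
  · exact Or.inr ⟨_, _, _, k51⟩
  · exact Or.inr ⟨_, _, _, k52⟩
  · exact Or.inr ⟨_, _, _, k53⟩
  · exact Or.inr ⟨_, _, _, k54⟩
  · exact Or.inr ⟨_, _, _, k55⟩
  · exact Or.inr ⟨_, _, _, k56⟩
  · exact Or.inr ⟨_, _, _, k57⟩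
  · exact Or.inr ⟨_, _, _, k58⟩
  · exact Or.inr ⟨_, _, _, k59⟩
  · exact Or.inr ⟨_, _, _, k60⟩
  · exact Or.inr ⟨_, _, _, k61⟩
  · exact Or.inr ⟨_, _, _, k62⟩
  · exact Or.inr ⟨_, _, _, k63⟩
  · exact Or.inr ⟨_, _, _, k64⟩
  · exact Or.inr ⟨_, _, _, k65⟩
  · exact Or.inr ⟨_, _, _, k66⟩
  · exact Or.inr ⟨_, _, _, k67⟩
  · exact Or.inr ⟨_, _, _, k68⟩
  · exact Or.inr ⟨_, _, _, k69⟩
  · exact Or.inr ⟨_, _, _, k70⟩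
  · exact Or.inr ⟨_, _, _, k71⟩
  · exact Or.inr ⟨_, _, _, k72⟩
  · exact Or.inr ⟨_, _, _, k73⟩
  · exact Or.inr ⟨_, _, _, k74⟩
  · exact Or.inr ⟨_, _, _, k75⟩
  · exact Or.inr ⟨_, _, _, k76⟩
  · exact Or.inr ⟨_, _, _, k77⟩
  · exact Or.inr ⟨_, _, _, k78⟩
  · exact Or.inr ⟨_, _, _, k79⟩
  · exact Or.inr ⟨_, _, _, k80⟩
  · exact Or.inr ⟨_, _, _, k81⟩
  · exact Or.inr ⟨_, _, _, k82⟩
  · exact Or.inr ⟨_, _, _, k83⟩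
  · exact Or.inr ⟨_, _, _, k84⟩
  · exact Or.inr ⟨_, _, _, k85⟩
  · exact Or.inr ⟨_, _, _, k86⟩
  · exact Or.inr ⟨_, _, _, k87⟩
  · exact Or.inr ⟨_, _, _, k88⟩
  · exact Or.inr ⟨_, _, _, k89⟩
  · exact Or.inr ⟨_, _, _, k90⟩
  · exact Or.inr ⟨_, _, _, k91⟩
  · exact Or.inr ⟨_, _, _, k92⟩
  · exact Or.inr ⟨_, _, _, k93⟩
  · exact Or.inr ⟨_, _, _, k94⟩
  · exact Or.inr ⟨_, _, _, k95⟩
  · exact Or.inr ⟨_, _, _, k96⟩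
  · exact Or.inr ⟨_, _, _, k97⟩
  · exact Or.inr ⟨_, _, _, k98⟩
  · exact Or.inr ⟨_, _, _, k99⟩

end SYE
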