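import Pool.Agent.SYE.D0
import Pool.Agent.SYE.D1
import Pool.Agent.SYE.D2
import Pool.Agent.SYE.D3
import Pool.Agent.SYE.Tab
set_option autoImplicit false
set_option maxRecDepth 1000000
set_option linter.all false

namespace SYE

open Rpr

noncomputable def TB : Tr := (.node (.node (.node (.node (.node (.node (.node (.node (.leaf X0) (.leaf X128)) (.node (.leaf X64) (.leaf X192))) (.node (.node (.leaf X32) (.leaf X160)) (.node (.leaf X96) .E))) (.node (.node (.node (.leaf X16) (.leaf X144)) (.node (.leaf X80) (.leaf X208))) (.node (.node (.leaf X48) (.leaf X176)) (.node (.leaf X112) .E)))) (.node (.node (.node (.node (.leaf X8) (.leaf X136)) (.node (.leaf X72) (.leaf X200))) (.node (.node (.leaf X40) (.leaf X168)) (.node (.leaf X104) .E))) (.node (.node (.node (.leaf X24) (.leaf X152)) (.node (.leaf X88) .E)) (.node (.node (.leaf X56) (.leaf X184)) (.node (.leaf X120) .E))))) (.node (.node (.node (.node (.node (.leaf X4) (.leaf X132)) (.node (.leaf X68) (.leaf X196))) (.node (.node (.leaf X36) (.leaf X164)) (.node (.leaf X100) .E))) (.node (.node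 (.node (.leaf X20) (.leaf X148)) (.node (.leaf X84) (.leaf X212))) (.node (.node (.leaf X52) (.leaf X180)) (.node (.leaf X116) .E)))) (.node (.node (.node (.node (.leaf X12) (.leaf X140)) (.node (.leaf X76) (.leaf X204))) (.node (.node (.leaf X44) (.leaf X172)) (.node (.leaf X108) .E))) (.node (.node (.node (.leaf X28) (.leaf X156)) (.node (.leaf X92) .E)) (.node (.node (.leaf X60) (.leaf X188)) (.node (.leaf X124) .E)))))) (.node (.node (.node (.node (.node (.node (.leaf X2) (.leaf X130)) (.node (.leaf X66) (.leaf X194))) (.node (.node (.leaf X34) (.leaf X162)) (.node (.leaf X98) .E))) (.node (.node (.node (.leaf X18) (.leaf X146)) (.node (.leaf X82) (.leaf X210))) (.node (.node (.leaf X50) (.leaf X178)) (.node (.leaf X114) .E)))) (.node (.node (.node (.node (.leaf X10) (.leaf X138)) (.node (.leaf X74) (.leaf X202))) (.node (.node (.leaf X42) (.leaf X170)) (.node (.leaf X106) .E))) (.node (.node (.node (.leaf X26) (.leaf X154)) (.node (.leaf X90) .E)) (.node (.node (.leaf X58) (.leaf X186)) (.node (.leaf X122) .E))))) (.node (.node (.node (.node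 (.node (.leaf X6) (.leaf X134)) (.node (.leaf X70) (.leaf X198))) (.node (.node (.leaf X38) (.leaf X166)) (.node (.leaf X102) .E))) (.node (.node (.node (.leaf X22) (.leaf X150)) (.node (.leaf X86) .E)) (.node (.node (.leaf X54) (.leaf X182)) (.node (.leaf X118) .E)))) (.node (.node (.node (.node (.leaf X14) (.leaf X142)) (.node (.leaf X78) (.leaf X206))) (.node (.node (.leaf X46) (.leaf X174)) (.node (.leaf X110) .E))) (.node (.node (.node (.leaf X30) (.leaf X158)) (.node (.leaf X94) .E)) (.node (.node (.leaf X62) (.leaf X190)) (.node (.leaf X126) .E))))))) (.node (.node (.node (.node (.node (.node (.node (.leaf X1) (.leaf X129)) (.node (.leaf X65) (.leaf X193))) (.node (.node (.leaf X33) (.leaf X161)) (.node (.leaf X97) .E))) (.node (.node (.node (.leaf X17) (.leaf X145)) (.node (.leaf X81) (.leaf X209))) (.node (.node (.leaf X49) (.leaf X177)) (.node (.leaf X113) .E)))) (.node (.node (.node (.node (.leaf X9) (.leaf X137)) (.node (.leaf X73) (.leaf X201))) (.node (.node (.leaf X41) (.leaf X169)) (.node (.leaf X105) .E))) (.node (.node (.node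 (.leaf X25) (.leaf X153)) (.node (.leaf X89) .E)) (.node (.node (.leaf X57) (.leaf X185)) (.node (.leaf X121) .E))))) (.node (.node (.node (.node (.node (.leaf X5) (.leaf X133)) (.node (.leaf X69) (.leaf X197))) (.node (.node (.leaf X37) (.leaf X165)) (.node (.leaf X101) .E))) (.node (.node (.node (.leaf X21) (.leaf X149)) (.node (.leaf X85) .E)) (.node (.node (.leaf X53) (.leaf X181)) (.node (.leaf X117) .E)))) (.node (.node (.node (.node (.leaf X13) (.leaf X141)) (.node (.leaf X77) (.leaf X205))) (.node (.node (.leaf X45) (.leaf X173)) (.node (.leaf X109) .E))) (.node (.node (.node (.leaf X29) (.leaf X157)) (.node (.leaf X93) .E)) (.node (.node (.leaf X61) (.leaf X189)) (.node (.leaf X125) .E)))))) (.node (.node (.node (.node (.node (.node (.leaf X3) (.leaf X131)) (.node (.leaf X67) (.leaf X195))) (.node (.node (.leaf X35) (.leaf X163)) (.node (.leaf X99) .E))) (.node (.node (.node (.leaf X19) (.leaf X147)) (.node (.leaf X83) (.leaf X211))) (.node (.node (.leaf X51) (.leaf X179)) (.node (.leaf X115) .E)))) (.node (.node (.node (.node (.leaf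 X11) (.leaf X139)) (.node (.leaf X75) (.leaf X203))) (.node (.node (.leaf X43) (.leaf X171)) (.node (.leaf X107) .E))) (.node (.node (.node (.leaf X27) (.leaf X155)) (.node (.leaf X91) .E)) (.node (.node (.leaf X59) (.leaf X187)) (.node (.leaf X123) .E))))) (.node (.node (.node (.node (.node (.leaf X7) (.leaf X135)) (.node (.leaf X71) (.leaf X199))) (.node (.node (.leaf X39) (.leaf X167)) (.node (.leaf X103) .E))) (.node (.node (.node (.leaf X23) (.leaf X151)) (.node (.leaf X87) .E)) (.node (.node (.leaf X55) (.leaf X183)) (.node (.leaf X119) .E)))) (.node (.node (.node (.node (.leaf X15) (.leaf X143)) (.node (.leaf X79) (.leaf X207))) (.node (.node (.leaf X47) (.leaf X175)) (.node (.leaf X111) .E))) (.node (.node (.node (.leaf X31) (.leaf X159)) (.node (.leaf X95) .E)) (.node (.node (.leaf X63) (.leaf X191)) (.node (.leaf X127) .E))))))))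

end SYE
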